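import Mathlib

set_option autoImplicit false

namespace Pool.Agent.Results.MP_f0ff61_co.Counter

open Finset Matrix

/-- The vector space `F_2^r`. -/
abbrev V (r : ℕ) := Fin r → ZMod 2

/-- Generator multiset: a list of nonzero vectors spanning `F_2^r`. -/
def IsGen {r : ℕ} (M : List (V r)) : Prop :=
  (∀ v ∈ M, v ≠ 0) ∧ Submodule.span (ZMod 2) {v | v ∈ M} = ⊤

/-- The gcd of the positive multiplicities. -/
def gcdMult {r : ℕ} (M : List (V r)) : ℕ := M.toFinset.gcd fun v => M.count v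

/-- Laplacian of the Cayley graph. -/
def lap {r : ℕ} (M : List (V r)) : Matrix (V r) (V r) ℤ := fun u w =>
  if u = w then M.length else -(M.countP fun v => u + v = w : ℕ)

/-- The image of the Laplacian. -/
def im {r : ℕ} (M : List (V r)) : Submodule ℤ (V r → ℤ) := LinearMap.range (lap M).mulVecLin

/-- The cokernel of the Laplacian. -/
def Coker {r : ℕ} (M : List (V r)) : Type := (V r → ℤ) ⧸ im M

instance grp {r : ℕ} (M : List (V r)) : AddCommGroup (Coker M) :=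
  Submodule.Quotient.addCommGroup (im M)

/-- The sandpile group: torsion subgroup of the cokernel of the Laplacian. -/
def K {r : ℕ} (M : List (V r)) : AddSubgroup (Coker M) := AddCommGroup.torsion (Coker M)

/-- The eigenvalue `λ_u = 2 #{i : u · v_i = 1}`. -/
def ev {r : ℕ} (M : List (V r)) (u : V r) : ℕ := 2 * M.countP fun v => u ⬝ᵥ v = 1

def M1 : List (V 3) := [![0,1,0], ![1,1,0], ![1,1,0], ![0,0,1], ![1,0,1], ![1,0,1], ![0,1,1],
  ![1,1,1], ![1,1,1]]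

def M2 : List (V 3) := [![1,0,0], ![0,1,0], ![1,1,0], ![0,0,1], ![1,0,1], ![0,1,1],
  ![1,1,1], ![1,1,1], ![1,1,1]]

def ix (u : V 3) : ℕ := (u 0).val + 2 * (u 1).val + 4 * (u 2).val

def tb (l : List (List ℤ)) (u w : V 3) : ℤ := (l.getD (ix u) []).getD (ix w) 0

def e (u : V 3) : V 3 → ℤ := fun w => (if w = u then 1 else 0) - if w = 0 then 1 else 0

theorem gen (M : List (V 3)) (h1 : ∀ v ∈ M, v ≠ 0)
    (h : ∀ v, ∃ a ∈ M, ∃ b ∈ M, ∃ c ∈ M, v = a + b ∨ v = a + b + c) : IsGen M := by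
  refine ⟨h1, eq_top_iff.mpr fun v _ => ?_⟩
  obtain ⟨a, ha, b, hb, c, hc, rfl | rfl⟩ := h v
  · exact add_mem (Submodule.subset_span ha) (Submodule.subset_span hb)
  · exact add_mem (add_mem (Submodule.subset_span ha) (Submodule.subset_span hb))
      (Submodule.subset_span hc)

theorem z {M : List (V 3)} (x y : V 3 → ℤ) (h : x = lap M *ᵥ y) :
    (im M).mkQ x = 0 :=
  (Submodule.Quotient.mk_eq_zero _).mpr ⟨y, h.symm⟩

theorem small : ∃ f : Fin 2 × Fin 2 → (V 3 → ℤ) ⧸ im M2,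
    ∀ x : K M2, ∃ p, 24 • x.1 = f p := by
  let q := (im M2).mkQ
  refine ⟨fun p => (p.1.1 : ℤ) • q (24 • e ![1,0,0]) + (p.2.1 : ℤ) • q (24 • e ![0,1,0]), ?_⟩
  rintro ⟨x, hx⟩
  obtain ⟨x, rfl⟩ := Submodule.mkQ_surjective _ x
  obtain ⟨n, hn, h⟩ := isOfFinAddOrder_iff_nsmul_eq_zero.mp hx
  replace h := (map_nsmul q n x).trans h
  obtain ⟨y, hy⟩ := (Submodule.Quotient.mk_eq_zero _).mp h
  have s : ∑ u, x u = 0 := by
    have := congrArg ((fun _ => 1 : V 3 → ℤ) ⬝ᵥ ·) hy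
    simp only [mulVecLin_apply, dotProduct_mulVec] at this
    rw [show (fun _ => 1 : V 3 → ℤ) ᵥ* lap M2 = 0 by decide +kernel, zero_dotProduct,
      dotProduct_smul] at this
    simpa [hn.ne', dotProduct] using this
  have hx : x = ∑ u, x u • e u := by
    ext w
    simp [e, mul_sub, sum_sub_distrib, s]
  have a2 : (2 : ℤ) • q (24 • e ![1,0,0]) = 0 := by
    rw [← map_zsmul]
    exact z _ (tb [[0, 10, 5, 5, 5, 5, 6, 4]] 0) (by decide +kernel)
  have b2 : (2 : ℤ) • q (24 • e ![0,1,0]) = 0 := by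
    rw [← map_zsmul]
    exact z _ (tb [[0, 5, 10, 5, 5, 6, 5, 4]] 0) (by decide +kernel)
  have k : ∀ u, 24 • q (e u) = tb [[0,1,0,1,1,0,1,0]] 0 u • q (24 • e ![1,0,0]) +
      tb [[0,0,1,1,1,1,0,0]] 0 u • q (24 • e ![0,1,0]) := fun u => by
    rw [← map_nsmul, ← map_zsmul, ← map_zsmul, ← map_add, ← sub_eq_zero, ← map_sub]
    refine z _ (tb [[], [], [], [0, -5, -5, 0, -2, -3, -3, -2], [0, -5, -5, -2, 0, -3, -3, -2],
      [0, 0, -2, 0, 0, 2, 0, 0], [0, -2, 0, 0, 0, 0, 2, 0], [0, 2, 2, 2, 2, 2, 2, 4]] u) ?_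
    revert u
    decide +kernel
  have m : ∀ (a : (V 3 → ℤ) ⧸ im M2) (t : ℤ), (2 : ℤ) • a = 0 →
      ∃ p : Fin 2, t • a = (p.1 : ℤ) • a := fun a t h => by
    obtain ⟨s, rfl | rfl⟩ := t.even_or_odd'
    · exact ⟨0, by rw [mul_comm, mul_smul, h]; simp⟩
    · exact ⟨1, by rw [add_smul, mul_comm, mul_smul, h]; simp⟩
  obtain ⟨p1, h1⟩ := m _ (∑ u, x u * tb [[0,1,0,1,1,0,1,0]] 0 u) a2
  obtain ⟨p2, h2⟩ := m _ (∑ u, x u * tb [[0,0,1,1,1,1,0,0]] 0 u) b2
  refine ⟨(p1, p2), ?_⟩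
  refine (map_nsmul q 24 x).symm.trans ((map_nsmul q 24 x).trans ?_)
  show _ = (p1.1 : ℤ) • _ + (p2.1 : ℤ) • _
  rw [← h1, ← h2, sum_smul, sum_smul, ← sum_add_distrib, congrArg q hx, map_sum, smul_sum]
  refine sum_congr rfl fun u _ => ?_
  rw [map_zsmul, smul_comm, k, smul_add, mul_smul, mul_smul]

theorem result : ∃ M M' : List (V 3), IsGen M ∧ IsGen M' ∧ gcdMult M = 1 ∧ gcdMult M' = 1 ∧
    Set.range (ev M) = Set.range (ev M') ∧ univ.val.map (ev M) = univ.val.map (ev M') ∧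
    IsEmpty (K M ≃+ K M') := by
  have h : univ.val.map (ev M1) = univ.val.map (ev M2) := by decide +kernel
  refine ⟨M1, M2, gen _ (by decide +kernel) (by decide +kernel),
    gen _ (by decide +kernel) (by decide +kernel), by decide +kernel, by decide +kernel, ?_, h,
    ⟨fun φ => ?_⟩⟩
  · ext x
    simpa using congrArg (x ∈ ·) h
  let q := (im M1).mkQ
  have t : ∀ u, q (e u) ∈ K M1 := fun u => by
    refine isOfFinAddOrder_iff_nsmul_eq_zero.mpr ⟨48, by norm_num, ?_⟩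
    refine (map_nsmul q _ _).symm.trans <| z _ (tb [[], [0, 11, 6, 5, 6, 5, 6, 5], [0, 6, 10, 4, 5, 5, 5, 5],
      [0, 5, 4, 9, 5, 4, 5, 4], [0, 6, 5, 5, 10, 4, 5, 5], [0, 5, 5, 4, 4, 9, 5, 4],
      [0, 6, 5, 5, 5, 5, 10, 4], [0, 5, 5, 4, 5, 4, 4, 9]] u) ?_
    revert u
    decide +kernel
  obtain ⟨f, hf⟩ := small
  choose p hp using fun u => hf (φ ⟨_, t u⟩)
  obtain ⟨u, w, ne, h⟩ := Fintype.exists_ne_map_eq_of_card_lt p (by decide +kernel)
  have : 24 • (⟨_, t u⟩ : K M1) = 24 • ⟨_, t w⟩ := φ.injective (Subtype.ext (by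
    rw [map_nsmul, map_nsmul]; exact (hp u).trans (h ▸ (hp w).symm)))
  have : 24 • q (e u) = 24 • q (e w) := congrArg Subtype.val this
  rw [← map_nsmul, ← map_nsmul, ← sub_eq_zero, ← map_sub] at this
  obtain ⟨y, hy⟩ := (Submodule.Quotient.mk_eq_zero _).mp this
  let c := tb [[15, 45, 1, 19, 0, 0, 0, 0], [20, 44, 1, 19, 43, 1, 0, 0], [44, 1, 0, 5, 1, 0, 1, 0]]
  have k : ∀ u w, (∀ i, 48 ∣ c i ⬝ᵥ (24 • e u - 24 • e w)) → u = w := by decide +kernel
  refine ne (k u w fun i => ?_)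
  rw [← hy, mulVecLin_apply, dotProduct_mulVec]
  refine dvd_sum fun j _ => Dvd.dvd.mul_right ?_ _
  revert i j
  decide +kernel

end Pool.Agent.Results.MP_f0ff61_co.Counter
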